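import Mathlib
import Pool.Agent.Q120.TT.Stm

/-!
# Project TT, job THINK: the cheapest law without tuples
-/

set_option autoImplicit false

namespace Pool.Agent.Q177.TT

open Finset Filter Pool.Agent.Q120.TT Pool.Agent.Q120.ET Pool.Agent.Q120.CL Pool.Agent.Q120.MG
  Pool.Agent.Q120.HL
open scoped Topology

/-- The rule of the thinning. -/
def rule (D : Finset ℕ) (H N : ℕ) (x : ℕ) (U : Finset ℕ) : Prop :=
  x < N + H ∨ ∀ h ∈ D.erase H, x - (H - h) ∈ U

theorem neg_log_le {p : ℝ} (h0 : 0 ≤ p) (h1 : p ≤ 1 / 2) : -Real.log (1 - p) ≤ 2 * p := by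
  have h2 : 0 < 1 - p := by linarith
  rw [← Real.log_inv]
  have h3 := Real.log_le_sub_one_of_pos (inv_pos.2 h2)
  have h4 : (1 - p)⁻¹ - 1 = p / (1 - p) := by
    field_simp
    ring
  rw [h4] at h3
  refine h3.trans ?_
  rw [div_le_iff₀ h2]
  nlinarith

/-- The probabilities are small. -/
theorem pr_small {z : ℕ → ℕ} {k n : ℕ} (hk : 16 ≤ k) (hz : 8 * z k ≤ k) (hn : n ∈ block k) :
    pr z n ≤ 1 / 2 := by
  rw [block, Finset.mem_Ico] at hn
  have h1 := pr_le (z := z) (show 1 ≤ k by omega) hn.1 hn.2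
  have hV := le_Vf2 (z k)
  have hVp := Vf_pos (z k)
  have hl : (0.6931471803 : ℝ) < Real.log 2 := Real.log_two_gt_d9
  have hk' : (16 : ℝ) ≤ k := by exact_mod_cast hk
  have hz' : 8 * (z k : ℝ) ≤ k := by exact_mod_cast hz
  refine h1.trans ?_
  have hz0 : (0 : ℝ) < (z k : ℝ) + 1 := by positivity
  have h2 : 2 ≤ Vf (z k) * (k * Real.log 2) := by
    have h3 : 1 ≤ Vf (z k) * ((z k : ℝ) + 1) := by
      rwa [div_le_iff₀ hz0] at hV
    have h4 : 2 * ((z k : ℝ) + 1) ≤ k * Real.log 2 := by
      have : (k : ℝ) * 0.6931471803 ≤ k * Real.log 2 :=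
        mul_le_mul_of_nonneg_left hl.le (by linarith)
      linarith
    calc (2 : ℝ) = 2 * 1 := by ring
      _ ≤ 2 * (Vf (z k) * ((z k : ℝ) + 1)) := by linarith
      _ = Vf (z k) * (2 * ((z k : ℝ) + 1)) := by ring
      _ ≤ Vf (z k) * (k * Real.log 2) := mul_le_mul_of_nonneg_left h4 hVp.le
  exact one_div_le_one_div_of_le (by norm_num) h2

open Classical in
/-- **Job THINK.** -/
theorem t_THINK : J_THINK := by
  intro hADP hMEAN z D H hz hz8 hHD hDH
  have hD : D.Nonempty := ⟨H, hHD⟩
  obtain ⟨r, hr⟩ : ∃ r, r = D.card := ⟨_, rfl⟩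
  have hl2 : 0 < Real.log 2 := Real.log_pos (by norm_num)
  refine ⟨H + 2 * (|SS D| + 1) / Real.log 2 ^ r + 1, by positivity, ?_⟩
  -- the comparison of k ^ r and 2 ^ k
  have hpow : ∀ᶠ k : ℕ in atTop, (k : ℝ) ^ r ≤ 2 ^ k := by
    have h1 : Tendsto (fun n : ℕ => (n : ℝ) ^ r / (2 : ℝ) ^ n) atTop (𝓝 0) :=
      tendsto_pow_const_div_const_pow_of_one_lt r (by norm_num)
    filter_upwards [h1.eventually (gt_mem_nhds (zero_lt_one))] with k hk
    rw [div_lt_one (by positivity)] at hk
    exact hk.le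
  have hHk : ∀ᶠ k : ℕ in atTop, H ≤ 2 ^ k := by
    filter_upwards [eventually_ge_atTop H] with k hk
    exact hk.trans Nat.lt_two_pow_self.le
  filter_upwards [hz8, hMEAN z D H hz hz8 hD hDH 1 one_pos, eventually_ge_atTop 16, hpow, hHk] with
    k hk8 hmean hk16 hkr hkH
  have hk0 : (0 : ℝ) < k := by
    have : (16 : ℝ) ≤ k := by exact_mod_cast hk16
    linarith
  obtain ⟨φ, hφ⟩ : ∃ φ, φ = rule D H (2 ^ k) := ⟨_, rfl⟩
  have hpb : ∀ n ∈ block k, 0 ≤ pr z n ∧ pr z n < 1 := fun n hn =>
    ⟨pr_nonneg z n, lt_of_le_of_lt (pr_small hk16 hk8 hn) (by norm_num)⟩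
  obtain ⟨hLaw, hdom, hent, hphi⟩ := hADP (pr z) φ (2 ^ k) (2 ^ (k + 1)) hpb
  have hblk : Ico (2 ^ k) (2 ^ (k + 1)) = block k := rfl
  rw [hblk] at hLaw hdom hent hphi
  refine ⟨thinOn (pr z) φ (block k), hLaw, fun T hT h0 => ⟨fun n hn => ?_, fun x hx => ?_⟩, ?_⟩
  · refine hphi T hT h0 (n + H) (hn H hHD) ?_
    rw [hφ]
    right
    intro h hh
    rw [Finset.mem_erase] at hh
    have h1 := hDH h hh.2
    have h2 : n + H - (H - h) = n + h := by omega
    rw [h2, Finset.mem_filter]
    exact ⟨hn h hh.2, by have := hh.1; omega⟩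
  · by_contra hlt
    refine hphi T hT h0 x hx ?_
    rw [hφ]
    left
    omega
  · refine hent.trans ?_
    have h2k : 2 ^ k + H ≤ 2 ^ (k + 1) := by
      rw [pow_succ]
      omega
    have hsplit : ∑ x ∈ block k, -Real.log (1 - pr z x) *
        ∑ T ∈ (block k).powerset with φ x (T.filter (fun y => y < x)),
          thinOn (pr z) φ (block k) T =
        ∑ x ∈ Ico (2 ^ k) (2 ^ k + H), -Real.log (1 - pr z x) *
          ∑ T ∈ (block k).powerset with φ x (T.filter (fun y => y < x)),
            thinOn (pr z) φ (block k) T +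
        ∑ x ∈ Ico (2 ^ k + H) (2 ^ (k + 1)), -Real.log (1 - pr z x) *
          ∑ T ∈ (block k).powerset with φ x (T.filter (fun y => y < x)),
            thinOn (pr z) φ (block k) T := by
      exact (Finset.sum_Ico_consecutive (fun x => -Real.log (1 - pr z x) *
        ∑ T ∈ (block k).powerset with φ x (T.filter (fun y => y < x)),
          thinOn (pr z) φ (block k) T) (show 2 ^ k ≤ 2 ^ k + H by omega) h2k).symm
    rw [hsplit]
    have hlog0 : ∀ x ∈ block k, 0 ≤ -Real.log (1 - pr z x) ∧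
        -Real.log (1 - pr z x) ≤ 2 * pr z x := by
      intro x hx
      refine ⟨?_, neg_log_le (pr_nonneg z x) (pr_small hk16 hk8 hx)⟩
      rw [neg_nonneg]
      exact Real.log_nonpos (by linarith [pr_le_one z x]) (by linarith [pr_nonneg z x])
    have hin0 : ∀ (F : Finset ℕ → Prop),
        0 ≤ ∑ T ∈ (block k).powerset with F T, thinOn (pr z) φ (block k) T := fun F =>
      Finset.sum_nonneg fun T hT => hLaw.nonneg T (Finset.mem_filter.1 hT).1
    have hin1 : ∀ (F : Finset ℕ → Prop),
        ∑ T ∈ (block k).powerset with F T, thinOn (pr z) φ (block k) T ≤ 1 := by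
      intro F
      rw [← hLaw.total]
      exact Finset.sum_le_sum_of_subset_of_nonneg (Finset.filter_subset _ _)
        fun T hT _ => hLaw.nonneg T hT
    -- the first part
    have hA : ∑ x ∈ Ico (2 ^ k) (2 ^ k + H), -Real.log (1 - pr z x) *
          ∑ T ∈ (block k).powerset with φ x (T.filter (fun y => y < x)),
            thinOn (pr z) φ (block k) T ≤ H := by
      have h1 : ∀ x ∈ Ico (2 ^ k) (2 ^ k + H), -Real.log (1 - pr z x) *
          ∑ T ∈ (block k).powerset with φ x (T.filter (fun y => y < x)),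
            thinOn (pr z) φ (block k) T ≤ 1 := by
        intro x hx
        have hxb : x ∈ block k := by
          rw [Finset.mem_Ico] at hx
          rw [block, Finset.mem_Ico]
          omega
        obtain ⟨e1, e2⟩ := hlog0 x hxb
        have e3 := pr_small hk16 hk8 hxb
        calc _ ≤ (1 : ℝ) * 1 := mul_le_mul (by linarith) (hin1 _) (hin0 _) zero_le_one
          _ = 1 := one_mul 1
      refine (Finset.sum_le_card_nsmul _ _ 1 h1).trans ?_
      rw [Nat.card_Ico, nsmul_eq_mul, mul_one]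
      exact_mod_cast (by omega : 2 ^ k + H - 2 ^ k ≤ H)
    -- the second part
    have hB : ∑ x ∈ Ico (2 ^ k + H) (2 ^ (k + 1)), -Real.log (1 - pr z x) *
          ∑ T ∈ (block k).powerset with φ x (T.filter (fun y => y < x)),
            thinOn (pr z) φ (block k) T ≤ 2 * EI (pr z) D (2 ^ k) (2 ^ (k + 1) - H) := by
      unfold EI
      have h1 : Ico (2 ^ k + H) (2 ^ (k + 1)) =
          (Ico (2 ^ k) (2 ^ (k + 1) - H)).map (addRightEmbedding H) := by
        rw [Finset.map_add_right_Ico]
        congr 1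
        omega
      rw [h1, Finset.sum_map, Finset.mul_sum]
      refine Finset.sum_le_sum fun n hn => ?_
      rw [Finset.mem_Ico] at hn
      change -Real.log (1 - pr z (n + H)) *
        ∑ T ∈ (block k).powerset with φ (n + H) (T.filter (fun y => y < n + H)),
            thinOn (pr z) φ (block k) T ≤ _
      have hxb : n + H ∈ block k := by
        rw [block, Finset.mem_Ico]
        omega
      obtain ⟨e1, e2⟩ := hlog0 _ hxb
      have hS : (D.erase H).image (fun h => n + h) ⊆ block k := by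
        intro y hy
        rw [Finset.mem_image] at hy
        obtain ⟨h, hh, rfl⟩ := hy
        have := hDH h (Finset.mem_of_mem_erase hh)
        rw [block, Finset.mem_Ico]
        omega
      have h2 : ∑ T ∈ (block k).powerset with φ (n + H) (T.filter (fun y => y < n + H)),
            thinOn (pr z) φ (block k) T ≤ ∏ h ∈ D.erase H, pr z (n + h) := by
        have h3 := hdom _ hS
        rw [Finset.prod_image (by
          intro a _ b _ hab
          exact Nat.add_left_cancel hab)] at h3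
        refine le_trans ?_ h3
        refine Finset.sum_le_sum_of_subset_of_nonneg ?_ fun T hT _ =>
          hLaw.nonneg T (Finset.mem_filter.1 hT).1
        intro T hT
        rw [Finset.mem_filter] at hT ⊢
        refine ⟨hT.1, ?_⟩
        have h4 := hT.2
        rw [hφ] at h4
        rcases h4 with h4 | h4
        · omega
        · intro y hy
          rw [Finset.mem_image] at hy
          obtain ⟨h, hh, rfl⟩ := hy
          have h5 := h4 h hh
          have h6 := hDH h (Finset.mem_of_mem_erase hh)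
          rw [show n + H - (H - h) = n + h by omega, Finset.mem_filter] at h5
          exact h5.1
      have h3 : ∏ h ∈ D, pr z (n + h) = pr z (n + H) * ∏ h ∈ D.erase H, pr z (n + h) :=
        (Finset.mul_prod_erase D (fun h => pr z (n + h)) hHD).symm
      rw [h3]
      calc _ ≤ (2 * pr z (n + H)) * ∏ h ∈ D.erase H, pr z (n + h) :=
            mul_le_mul e2 h2 (hin0 _) (by linarith [pr_nonneg z (n + H)])
        _ = _ := by ring
    have hM := hmean (2 ^ k) (2 ^ (k + 1) - H) le_rfl (by rw [pow_succ]; omega) (by omega)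
    have hM1 : EI (pr z) D (2 ^ k) (2 ^ (k + 1) - H) ≤
        (|SS D| + 1) * (2 ^ k / (k * Real.log 2) ^ r) := by
      have h1 := (abs_le.1 hM).2
      rw [← hr] at h1
      have hc : (((2 ^ (k + 1) - H : ℕ) : ℝ)) = 2 ^ (k + 1) - H := by
        rw [Nat.cast_sub (by omega)]
        push_cast
        rfl
      have hX : 0 < (k * Real.log 2) ^ r := by positivity
      have h2 : SS D * (((2 ^ (k + 1) - H : ℕ) : ℝ) - ((2 ^ k : ℕ) : ℝ)) /
          (k * Real.log 2) ^ r ≤ |SS D| * (2 ^ k / (k * Real.log 2) ^ r) := by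
        rw [mul_div_assoc']
        refine div_le_div_of_nonneg_right ?_ hX.le
        have h3 : (((2 ^ (k + 1) - H : ℕ) : ℝ) - ((2 ^ k : ℕ) : ℝ)) = 2 ^ k - H := by
          rw [hc]
          push_cast
          ring
        rw [h3]
        have h4 : (0 : ℝ) ≤ 2 ^ k - H := by
          have : (H : ℝ) ≤ 2 ^ k := by exact_mod_cast hkH
          linarith
        have h5 : (2 : ℝ) ^ k - H ≤ 2 ^ k := by
          have : (0 : ℝ) ≤ H := Nat.cast_nonneg H
          linarith
        calc SS D * (2 ^ k - H) ≤ |SS D| * (2 ^ k - H) :=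
              mul_le_mul_of_nonneg_right (le_abs_self _) h4
          _ ≤ |SS D| * 2 ^ k := mul_le_mul_of_nonneg_left h5 (abs_nonneg _)
      linarith
    have h1 : (2 : ℝ) ^ k / (k * Real.log 2) ^ r = (1 / Real.log 2 ^ r) * (2 ^ k / k ^ r) := by
      rw [mul_pow]
      field_simp
    have h2 : (1 : ℝ) ≤ 2 ^ k / k ^ r := by
      rw [one_le_div (by positivity)]
      exact hkr
    rw [h1] at hM1
    rw [← hr]
    have h3 : (H : ℝ) ≤ H * (2 ^ k / k ^ r) := by
      have : (0 : ℝ) ≤ H := Nat.cast_nonneg H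
      nlinarith
    calc _ ≤ (H : ℝ) + 2 * EI (pr z) D (2 ^ k) (2 ^ (k + 1) - H) := add_le_add hA hB
      _ ≤ H * (2 ^ k / k ^ r) + 2 * ((|SS D| + 1) * ((1 / Real.log 2 ^ r) * (2 ^ k / k ^ r))) := by
          linarith
      _ = (H + 2 * (|SS D| + 1) / Real.log 2 ^ r) * (2 ^ k / k ^ r) := by ring
      _ ≤ (H + 2 * (|SS D| + 1) / Real.log 2 ^ r + 1) * (2 ^ k / k ^ r) := by
          nlinarith

end Pool.Agent.Q177.TT
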